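import Pool.Agent.H66.MV.TwistGenus

/-!
# Genus of the A-polynomial curves of twist knots

`Q1` of `MP_70fbba_gt`: for every nonzero integer `p` the plane curve `A_p(L, M^{1/2}) = 0` has
genus `2p - 2` if `p > 0` and `2|p| - 1` if `p < 0`.
-/

open Polynomial

open scoped Polynomial.Bivariate

namespace Pool.Agent.Results.MP_70fbba_gt.TwistGenus

open Pool.H66.MV.TwistGenus

open Pool.Agent.H68

/-- **The genus of the A-polynomial curve of the twist knot `K_p`.** -/
theorem result (p : ℤ) (hp : p ≠ 0) :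
    (∃ P, IsAPolynomial p P ∧ ∀ P', IsAPolynomial p P' → P' = P ∨ P' = -P) ∧
    ∀ P, IsAPolynomial p P →
      ∃ A, P = squareM A ∧ Irreducible (toC A) ∧ CurveHasGenus (toC A) (genusFormula p) :=
  Pool.H66.MV.TwistGenus.result p hp

end Pool.Agent.Results.MP_70fbba_gt.TwistGenus
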